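import Pool.Agent.H69.OC.Targets
import Pool.Agent.H69.OC.Basic2

/-!
# SUBP: sub-pockets
-/

set_option autoImplicit false
open scoped Classical
open Finset

namespace Pool.Agent.H33.OC.SUBP

open Pool.Agent.H69.OC Pool.Agent.H69.OC.DG

theorem subp : T_SUBP := by
  intro V D _ _ G hC h3 _ X g hX W hWX h4 hW4
  have hco : 2 ≤ Wᶜ.card := hX.co.trans (card_le_card (compl_subset_compl.2 hWX))
  have htc : ∀ d, G.Tc W d → G.Tc X d := fun d h => h.imp (fun h => hWX h) (fun h => hWX h)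
  have hXc : (Xᶜ).Nonempty := card_pos.1 (by have := hX.co; omega)
  refine ⟨⟨fun v hv => hX.bal v (hWX hv), ?_, ?_⟩, h4, hW4, hco⟩
  · intro x hx1 hx2 hx3
    obtain ⟨W', hW'X, hW'⟩ := hX.eul x hx1 (fun d hd => hx2 d fun h => hd (htc d h)) (by
      intro k
      rw [← hx3 k]
      symm
      apply sum_subset
      · intro d hd
        rw [mem_sel] at hd ⊢
        exact ⟨hd.1, htc d hd.2.1, hd.2.2⟩
      · intro d hd hd'
        apply hx2
        intro h
        apply hd'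
        rw [mem_sel] at hd ⊢
        exact ⟨hd.1, h, hd.2.2⟩)
    refine ⟨W', ?_, hW'⟩
    by_contra hne
    rw [subset_iff] at hne
    push Not at hne
    obtain ⟨u, hu1, hu2⟩ := hne
    let Z : Finset V := W' \ W
    let Z' : Finset V := Wᶜ \ Z
    have hZ : Z.Nonempty := ⟨u, mem_sdiff.2 ⟨hu1, hu2⟩⟩
    have hZ' : Z'.Nonempty := by
      obtain ⟨w, hw⟩ := hXc
      refine ⟨w, mem_sdiff.2 ⟨mem_compl.2 fun h => mem_compl.1 hw (hWX h), fun h => ?_⟩⟩
      exact mem_compl.1 hw (hW'X (mem_sdiff.1 h).1)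
    have hWne : W.Nonempty := card_pos.1 (by omega)
    have hin : ∀ d, G.src d ∉ W → G.tgt d ∉ W → (G.src d ∈ W' ↔ G.tgt d ∈ W') := by
      intro d h1 h2
      have h0 : x d = 0 := hx2 d (by rintro (h | h) <;> contradiction)
      rw [hW' d] at h0
      exact ind_add_ind.1 h0
    -- the two cuts
    have hc1 : 3 ≤ (G.cut univ Z).card := h3 Z hZ (by
      rintro h
      obtain ⟨w, hw⟩ := hWne
      have : w ∈ Z := by rw [h]; exact mem_univ _
      exact (mem_sdiff.1 this).2 hw)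
    have hc2 : 3 ≤ (G.cut univ Z').card := h3 Z' hZ' (by
      rintro h
      obtain ⟨w, hw⟩ := hWne
      have : w ∈ Z' := by rw [h]; exact mem_univ _
      exact mem_compl.1 (mem_sdiff.1 this).1 hw)
    have hs1 : G.cut univ Z ⊆ G.cut univ Wᶜ := by
      intro d hd
      rw [mem_cut] at hd ⊢
      obtain ⟨_, h1, h2⟩ := hd
      rw [mem_sdiff] at h1
      refine ⟨mem_univ _, mem_compl.2 h1.2, fun h => h2 ?_⟩
      exact mem_sdiff.2 ⟨(hin d h1.2 (mem_compl.1 h)).1 h1.1, mem_compl.1 h⟩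
    have hs2 : G.cut univ Z' ⊆ G.cut univ Wᶜ := by
      intro d hd
      rw [mem_cut] at hd ⊢
      obtain ⟨_, h1, h2⟩ := hd
      rw [mem_sdiff] at h1
      refine ⟨mem_univ _, h1.1, fun h => h2 ?_⟩
      refine mem_sdiff.2 ⟨h, fun h' => h1.2 ?_⟩
      have h3 := mem_sdiff.1 h'
      exact mem_sdiff.2 ⟨(hin d (mem_compl.1 h1.1) h3.2).2 h3.1, mem_compl.1 h1.1⟩
    have hdis : Disjoint (G.cut univ Z) (G.cut univ Z') := by
      rw [disjoint_left]
      intro d hd hd'
      rw [mem_cut] at hd hd'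
      exact (mem_sdiff.1 hd'.2.1).2 hd.2.1
    have hle : (G.cut univ Z).card + (G.cut univ Z').card ≤ (G.cut univ Wᶜ).card := by
      rw [← card_union_of_disjoint hdis]
      exact card_le_card (union_subset hs1 hs2)
    rw [cut_compl G.cl_univ] at hle
    omega
  · intro S hS h1 h2 d hd d' hd' hg
    exact hX.orb S hS (fun d hd => ⟨hWX (h1 d hd).1, hWX (h1 d hd).2⟩) h2 d hd d' (htc d' hd') hg

end Pool.Agent.H33.OC.SUBP
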