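import Pool.Agent.H69.OC.Targets
import Pool.Agent.H69.OC.Basic2

/-!
# THETA: the theta graph
-/

set_option autoImplicit false
open scoped Classical
open Finset

namespace Pool.Agent.H33.OC.THETA

open Pool.Agent.H69.OC Pool.Agent.H69.OC.DG

theorem card_three {V D : Type} [Fintype V] [Fintype D] {G : DG V D} {v : V} {a b c : D}
    (h : sel univ (fun d => G.src d = v) = {a, b, c}) (hab : a ≠ b) (hac : a ≠ c) (hbc : b ≠ c)
    (q : D → Prop) : (sel univ fun d => G.src d = v ∧ q d).card =
      (if q a then 1 else 0) + (if q b then 1 else 0) + (if q c then 1 else 0) := by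
  have h1 : (sel univ fun d => G.src d = v ∧ q d) = filter q ({a, b, c} : Finset D) := by
    ext d
    rw [mem_sel, mem_filter, ← h, mem_sel]
    tauto
  rw [h1, card_filter, sum_insert (by simp [hab, hac]), sum_insert (by simp [hbc]), sum_singleton]
  ring

theorem theta : T_THETA := by
  intro V D _ _ G hC h3 hV
  obtain ⟨x, y, hxy, hu⟩ := card_eq_two.1 (show (univ : Finset V).card = 2 from hV)
  have hall : ∀ v, v = x ∨ v = y := by
    intro v
    have : v ∈ (univ : Finset V) := mem_univ v
    rw [hu] at this
    simpa using this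
  -- all darts at `x` go to `y` and conversely
  have key : ∀ x y : V, x ≠ y → ∀ d, G.src d = x → G.tgt d ≠ x := by
    intro x y hxy d hd h
    have h1 := h3 {x} ⟨x, mem_singleton_self x⟩ (by
      intro h
      have : y ∈ ({x} : Finset V) := by rw [h]; exact mem_univ _
      exact hxy (mem_singleton.1 this).symm)
    have h2 : G.cut univ {x} ⊆ (sel univ fun d => G.src d = x).erase d := by
      intro d' hd'
      rw [mem_cut, mem_singleton, mem_singleton] at hd'
      rw [mem_erase, mem_sel]
      refine ⟨?_, mem_univ _, hd'.2.1⟩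
      rintro rfl
      exact hd'.2.2 h
    have h4 := card_le_card h2
    have h5 : d ∈ sel univ (fun d => G.src d = x) := mem_sel.2 ⟨mem_univ _, hd⟩
    have h6 := hC x
    rw [card_erase_of_mem h5] at h4
    omega
  have kx : ∀ d, G.src d = x → G.tgt d = y := fun d hd =>
    (hall _).resolve_left (key x y hxy d hd)
  have ky : ∀ d, G.src d = y → G.tgt d = x := fun d hd =>
    (hall _).resolve_right (key y x hxy.symm d hd)
  obtain ⟨a, b, c, hab, hac, hbc, h⟩ := card_eq_three.1 (hC x)
  have hsx : ∀ d, G.src d = x ↔ d = a ∨ d = b ∨ d = c := by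
    intro d
    have : d ∈ (sel univ fun d => G.src d = x) ↔ d ∈ ({a, b, c} : Finset D) := by rw [h]
    rw [mem_sel] at this
    simpa using this
  have hax := (hsx a).2 (Or.inl rfl)
  have hbx := (hsx b).2 (Or.inr (Or.inl rfl))
  have hcx := (hsx c).2 (Or.inr (Or.inr rfl))
  have h' : sel univ (fun d => G.src d = y) = {G.inv a, G.inv b, G.inv c} := by
    ext d
    rw [mem_sel]
    simp only [mem_univ, true_and, mem_insert, mem_singleton]
    constructor
    · intro hd
      have h1 := (hsx (G.inv d)).1 (ky d hd)
      rcases h1 with h1 | h1 | h1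
      · left; rw [← h1, G.inv_inv]
      · right; left; rw [← h1, G.inv_inv]
      · right; right; rw [← h1, G.inv_inv]
    · rintro (rfl | rfl | rfl)
      · exact kx a hax
      · exact kx b hbx
      · exact kx c hcx
  have hab' : G.inv a ≠ G.inv b := fun h => hab (inv_inj h)
  have hac' : G.inv a ≠ G.inv c := fun h => hac (inv_inj h)
  have hbc' : G.inv b ≠ G.inv c := fun h => hbc (inv_inj h)
  have hne : ∀ d d', G.src d = x → G.src d' = x → G.inv d ≠ d' := by
    rintro d d' hd hd' rfl
    have := kx d hd
    exact hxy (hd'.symm.trans this)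
  let lam : D → ℕ := fun d => if d = a then 0 else if d = b then 1 else if d = c then 2 else
    if d = G.inv a then 1 else if d = G.inv b then 2 else 0
  have la : lam a = 0 := by simp [lam]
  have lb : lam b = 1 := by simp [lam, hab.symm]
  have lc : lam c = 2 := by simp [lam, hac.symm, hbc.symm]
  have la' : lam (G.inv a) = 1 := by
    simp [lam, hne a a hax hax, hne a b hax hbx, hne a c hax hcx]
  have lb' : lam (G.inv b) = 2 := by
    simp [lam, hne b a hbx hax, hne b b hbx hbx, hne b c hbx hcx, hab'.symm]
  have lc' : lam (G.inv c) = 0 := by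
    simp [lam, hne c a hcx hax, hne c b hcx hbx, hne c c hcx hcx, hac'.symm, hbc'.symm]
  refine ⟨lam, ?_, ?_⟩
  · intro d _
    have hd : d = a ∨ d = b ∨ d = c ∨ d = G.inv a ∨ d = G.inv b ∨ d = G.inv c := by
      rcases hall (G.src d) with hd | hd
      · rcases (hsx d).1 hd with h | h | h <;> simp [h]
      · have : d ∈ (sel univ fun d => G.src d = y) := mem_sel.2 ⟨mem_univ _, hd⟩
        rw [h'] at this
        simp only [mem_insert, mem_singleton] at this
        rcases this with h | h | h <;> simp [h]
    rcases hd with rfl | rfl | rfl | rfl | rfl | rfl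
    · rw [la, la']; decide
    · rw [lb, lb']; decide
    · rw [lc, lc']; decide
    · rw [G.inv_inv, la, la']; decide
    · rw [G.inv_inv, lb, lb']; decide
    · rw [G.inv_inv, lc, lc']; decide
  · intro v k
    rcases hall v with rfl | rfl
    · rw [card_three h hab hac hbc, card_three h hab hac hbc, la, lb, lc, la', lb', lc']
      ring
    · rw [card_three h' hab' hac' hbc', card_three h' hab' hac' hbc', G.inv_inv, G.inv_inv,
        G.inv_inv, la, lb, lc, la', lb', lc']
      ring

end Pool.Agent.H33.OC.THETA
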